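import Pool.Agent.Lib.MP_e95c01_co.SevenGraph

/-!
# `c_7 ≤ 8/49`

`KConn`, `contract`, `Critical`, `numDeg`, `Admissible` and `cc` are defined in
`Pool.Agent.Lib.MP_e95c01_co.Basic`; the graph is defined in
`Pool.Agent.Lib.MP_e95c01_co.SevenGraph`.
-/

namespace Pool.Agent.Results.MP_e95c01_co.SevenUpper

open Pool.Agent.Lib.MP_e95c01_co

/-- There is a 7-contraction-critical graph with 147 vertices, exactly 24 of which have degree 7;
in particular `c_7 ≤ 8/49`. -/
theorem result :
    (∃ G : SimpleGraph (Fin 147), Critical 7 G ∧ numDeg 7 G = 24) ∧ cc 7 ≤ 8 / 49 := by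
  refine ⟨⟨G147, G147_critical, G147_num⟩, ?_⟩
  refine cc_le G147_critical ?_
  rw [G147_num, Nat.card_fin]
  norm_num

end Pool.Agent.Results.MP_e95c01_co.SevenUpper
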