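import Pool.Agent.Lib.MP_e95c01_co.X.All76
import Pool.Agent.Lib.MP_e95c01_co.X.Text5_76

/-!
# 6-contraction-critical graphs without six mutually adjacent vertices of degree at most 7: the
exact constant is `1/3`

`KConn`, `contract`, `Critical` and `numDeg` are defined in `Pool.Agent.Lib.MP_e95c01_co.Basic`,
`SixClique` and `NoK6` in `Pool.Agent.Lib.MP_e95c01_co.X.Text5_76`.
-/

namespace Pool.Agent.Results.MP_e95c01_co.ThirdNoK6

open Pool.Agent.Lib.MP_e95c01_co

/-- Every finite 6-contraction-critical graph with `n` vertices that has no six mutually adjacent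
vertices of degree at most 7 has at least `n / 3` vertices of degree 6. For every `m ≥ 5` equality
holds for a graph with `3 m` vertices that has no six mutually adjacent vertices at all. -/
theorem result :
    (∀ (V : Type) [Finite V] (G : SimpleGraph V), Critical 6 G → ¬ SixClique G →
      Nat.card V ≤ 3 * numDeg 6 G) ∧
    (∀ m : ℕ, 5 ≤ m → ∃ (V : Type) (_ : Finite V) (G : SimpleGraph V),
      Nat.card V = 3 * m ∧ Critical 6 G ∧ NoK6 G ∧ numDeg 6 G = m) :=
  ⟨fun V _ G hG hK => N.Text5.free (fun V _ _ C => C.stFnK_all76) G hG hK,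
    fun m hm => N.Text5.sharp m hm⟩

end Pool.Agent.Results.MP_e95c01_co.ThirdNoK6
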