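import Pool.Agent.Lib.MP_e95c01_co.Y.All310_76
import Pool.Agent.Lib.MP_e95c01_co.Y.Text310_76

/-!
# `c_6 = 3/10`

`KConn`, `contract`, `Critical`, `numDeg`, `Admissible` and `cc` are defined in
`Pool.Agent.Lib.MP_e95c01_co.Basic`.
-/

namespace Pool.Agent.Results.MP_e95c01_co.ThreeTenths

open Pool.Agent.Lib.MP_e95c01_co

/-- Every finite 6-contraction-critical graph with `n` vertices has at least `3 n / 10` vertices of
degree 6. For every `m ≥ 5` there is a 6-contraction-critical graph with `10 m + 7` vertices,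
exactly `3 m + 9` of which have degree 6. Hence `c_6 = 3/10`. -/
theorem result :
    (∀ (V : Type) [Finite V] (G : SimpleGraph V), Critical 6 G →
      3 * Nat.card V ≤ 10 * numDeg 6 G) ∧
    (∀ m : ℕ, 5 ≤ m → ∃ (V : Type) (_ : Finite V) (G : SimpleGraph V),
      Nat.card V = 10 * m + 7 ∧ Critical 6 G ∧ numDeg 6 G = 3 * m + 9) ∧
    cc 6 = 3 / 10 :=
  N.Text310.exact310 (fun _ _ _ C hC => C.c310_all76 hC)

end Pool.Agent.Results.MP_e95c01_co.ThreeTenths
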